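import Pool.Agent.helper62.MS.SpecA

/-!
# MP_07c750, project MS: row STB (stretched bumps)
-/

set_option autoImplicit false

open scoped MatrixGroups ContDiff Topology UpperHalfPlane ComplexConjugate
open UpperHalfPlane MeasureTheory Filter Set

namespace Pool.Agent.MS

open Pool.Agent.RS

theorem STB_SB (w o : ℝ) (β : ℝ → ℝ) (h : SB w β) : SB (Real.exp o * w) (st o β) := by
  refine ⟨?_, fun x hx => ?_⟩
  · unfold st
    exact contDiff_const.mul (h.1.comp (contDiff_const.mul contDiff_id))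
  · unfold st at hx
    have h1 := h.2 _ (right_ne_zero_of_mul hx)
    rw [abs_mul, abs_of_pos (Real.exp_pos _)] at h1
    have h2 : Real.exp o * (Real.exp (-o) * |x|) = |x| := by
      rw [← mul_assoc, ← Real.exp_add, add_neg_cancel, Real.exp_zero, one_mul]
    rw [← h2]
    exact mul_le_mul_of_nonneg_left h1 (Real.exp_pos _).le

theorem STB_int (o : ℝ) (β : ℝ → ℝ) : ∫ x, st o β x ^ 2 = ∫ x, β x ^ 2 := by
  have h1 : ∀ x, st o β x ^ 2 = Real.exp (-o) * (fun y => β y ^ 2) (Real.exp (-o) * x) := by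
    intro x
    unfold st
    rw [mul_pow]
    congr 1
    rw [← Real.exp_nat_mul]
    congr 1
    push_cast
    ring
  simp_rw [h1]
  rw [integral_const_mul, Measure.integral_comp_mul_left (fun y => β y ^ 2), smul_eq_mul,
    abs_of_pos (inv_pos.2 (Real.exp_pos _)), ← mul_assoc, mul_inv_cancel₀ (Real.exp_pos _).ne', one_mul]

theorem STB_bump (w : ℝ) (hw : 0 < w) : ∃ α : ℝ → ℝ, SB w α ∧ (∀ x, 0 ≤ α x) ∧ 0 < ∫ x : ℝ, α x ∧
    0 < ∫ x : ℝ, α x ^ 2 := by
  let f : ContDiffBump (0 : ℝ) := ⟨w / 2, w, by positivity, by linarith⟩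
  have hcont : Continuous (f : ℝ → ℝ) := f.continuous
  have hc : HasCompactSupport (f : ℝ → ℝ) := f.hasCompactSupport
  have h0 : (f : ℝ → ℝ) 0 ≠ 0 := by
    rw [f.one_of_mem_closedBall (by simp [f.rIn_pos.le])]
    exact one_ne_zero
  refine ⟨f, ⟨f.contDiff, fun x hx => ?_⟩, fun x => f.nonneg, ?_, ?_⟩
  · have h1 : x ∈ Function.support (f : ℝ → ℝ) := hx
    rw [f.support_eq, Metric.mem_ball, dist_zero_right, Real.norm_eq_abs] at h1
    exact h1.le
  · exact hcont.integral_pos_of_hasCompactSupport_nonneg_nonzero hc (fun x => f.nonneg) h0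
  · refine (hcont.pow 2).integral_pos_of_hasCompactSupport_nonneg_nonzero ?_ (fun x => sq_nonneg _) (x := 0) (pow_ne_zero 2 h0)
    exact hc.comp_left (g := fun y : ℝ => y ^ 2) (by norm_num)

theorem STB_smul (w c : ℝ) (β : ℝ → ℝ) (h : SB w β) : SB w (fun x => c * β x) :=
  ⟨contDiff_const.mul h.1, fun x hx => h.2 x (right_ne_zero_of_mul hx)⟩

theorem STB_mono (w w' : ℝ) (β : ℝ → ℝ) (hw : w ≤ w') (h : SB w β) : SB w' β :=
  ⟨h.1, fun x hx => (h.2 x hx).trans hw⟩

theorem STB_proof : STB_stmt := by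
  refine ⟨fun β => ?_, fun o o' β => ?_, STB_SB, fun w o β h => ⟨STB_SB w o β h.1, ?_⟩,
    fun w w' β hw => ⟨STB_mono w w' β hw, fun h => ⟨STB_mono w w' β hw h.1, h.2⟩,
      fun h => ⟨STB_mono w w' β hw h.1, h.2⟩⟩, fun w hw => ?_⟩
  · funext x
    unfold st
    simp
  · funext x
    unfold st
    have h1 : Real.exp (-o') * (Real.exp (-o) * x) = Real.exp (-(o + o')) * x := by
      rw [← mul_assoc, ← Real.exp_add]
      congr 2
      ring
    have h2 : Real.exp (-(o / 2)) * Real.exp (-(o' / 2)) = Real.exp (-((o + o') / 2)) := by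
      rw [← Real.exp_add]
      congr 1
      ring
    rw [h1, ← mul_assoc, h2]
  · rw [STB_int]
    exact h.2
  · obtain ⟨f, hf, hf0, hf1, hf2⟩ := STB_bump w hw
    refine ⟨⟨fun x => (∫ y, f y)⁻¹ * f x, STB_smul w _ f hf, fun x => mul_nonneg (inv_pos.2 hf1).le (hf0 x), ?_⟩,
      ⟨fun x => (√(∫ y, f y ^ 2))⁻¹ * f x, STB_smul w _ f hf, ?_⟩⟩
    · rw [integral_const_mul, inv_mul_cancel₀ hf1.ne']
    · simp_rw [mul_pow, inv_pow, Real.sq_sqrt hf2.le]
      rw [integral_const_mul, inv_mul_cancel₀ hf2.ne']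

end Pool.Agent.MS
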